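import Pool.Agent.Lib.H21Cube.Base

/-!
# Chunk B1 (M): branches of a drawn tree at a point
-/

namespace Pool.Agent.Lib.H21Cube

open Pool.Agent.Lib.H21Steiner

variable {α E : Type*}

theorem br_node_self (v : E) (l r : PT α E) : br v (PT.node v l r) = br v l ++ br v r := by
  simp [br]

private theorem br_node_ne {v q : E} (h : q ≠ v) (l r : PT α E) :
    br v (PT.node q l r) = [PT.node q l r] := by
  simp [br, h]

theorem br_ne_nil (v : E) (t : PT α E) : br v t ≠ [] := by
  induction t with
  | leaf a => simp [br]
  | node q l r hl hr =>
      by_cases h : q = v
      · subst h
        rw [br_node_self]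
        simp [hl]
      · rw [br_node_ne h]
        simp

theorem leaves_br (v : E) (t : PT α E) : (br v t).flatMap PT.leaves = t.leaves := by
  induction t with
  | leaf a => simp [br]
  | node q l r hl hr =>
      by_cases h : q = v
      · subst h
        rw [br_node_self, List.flatMap_append, hl, hr, PT.leaves]
      · rw [br_node_ne h]
        simp

theorem InH_br {H : Set E} (v : E) {t : PT α E} (h : InH H t) : ∀ b ∈ br v t, InH H b := by
  induction t with
  | leaf a =>
      intro b hb
      simp only [br, List.mem_singleton] at hb
      subst hb
      trivial
  | node q l r hl hr =>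
      by_cases hq : q = v
      · subst hq
        intro b hb
        rw [br_node_self, List.mem_append] at hb
        rcases hb with hb | hb
        · exact hl h.2.1 b hb
        · exact hr h.2.2 b hb
      · intro b hb
        rw [br_node_ne hq, List.mem_singleton] at hb
        subst hb
        exact h

/-- A branch starts away from `v`, or it is a leaf at `v`. -/
theorem first_br (y : α → E) (v : E) (t : PT α E) : ∀ b ∈ br v t,
    first y b ≠ v ∨ ∃ a ∈ t.leaves, b = PT.leaf a ∧ y a = v := by
  induction t with
  | leaf a =>
      intro b hb
      simp only [br, List.mem_singleton] at hb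
      subst hb
      by_cases h : y a = v
      · exact Or.inr ⟨a, by simp [PT.leaves], rfl, h⟩
      · exact Or.inl h
  | node q l r hl hr =>
      by_cases hq : q = v
      · subst hq
        intro b hb
        rw [br_node_self, List.mem_append] at hb
        rcases hb with hb | hb
        · rcases hl b hb with h | ⟨a, ha, h⟩
          · exact Or.inl h
          · exact Or.inr ⟨a, by simp [PT.leaves, ha], h⟩
        · rcases hr b hb with h | ⟨a, ha, h⟩
          · exact Or.inl h
          · exact Or.inr ⟨a, by simp [PT.leaves, ha], h⟩
      · intro b hb
        rw [br_node_ne hq, List.mem_singleton] at hb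
        subst hb
        exact Or.inl hq

theorem len_br [MetricSpace E] (y : α → E) (v : E) (t : PT α E) :
    t.len y v = ((br v t).map (fun b => b.len y v)).sum := by
  induction t with
  | leaf a => simp [br]
  | node q l r hl hr =>
      by_cases hq : q = v
      · subst hq
        rw [br_node_self, List.map_append, List.sum_append, ← hl, ← hr, PT.len, dist_self]
        ring
      · rw [br_node_ne hq]
        simp

/-- The length as a function of the root point. -/
theorem len_first [MetricSpace E] (y : α → E) (b : PT α E) :
    ∃ c : ℝ, ∀ w, b.len y w = dist w (first y b) + c := by
  cases b with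
  | leaf a => exact ⟨0, fun w => by simp [PT.len, first]⟩
  | node q l r => exact ⟨l.len y q + r.len y q, fun w => by simp only [PT.len, first]; ring⟩

/-- A list of branches at `q` can be joined to a tree through `q` (induction on the list; for the list
`[b]` take `b` and the triangle inequality, for `b :: bs` take `node q b s`). -/
theorem exists_mk [MetricSpace E] (y : α → E) (q : E) : ∀ bs : List (PT α E), bs ≠ [] →
    ∃ s : PT α E, s.leaves.Perm (bs.flatMap PT.leaves) ∧
      ∀ p, s.len y p ≤ dist p q + (bs.map (fun b => b.len y q)).sum := by
  intro bs
  induction bs with
  | nil => intro h; exact absurd rfl h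
  | cons b bs ih =>
      intro _
      by_cases hbs : bs = []
      · subst hbs
        refine ⟨b, by simp, fun p => ?_⟩
        obtain ⟨c, hc⟩ := len_first y b
        rw [hc p]
        simp only [List.map_cons, List.map_nil, List.sum_cons, List.sum_nil, add_zero]
        rw [hc q]
        have := dist_triangle p q (first y b)
        linarith
      · obtain ⟨s, hs1, hs2⟩ := ih hbs
        refine ⟨PT.node q b s, ?_, fun p => ?_⟩
        · simp only [PT.leaves, List.flatMap_cons]
          exact List.Perm.append_left _ hs1
        · have h := hs2 q
          rw [dist_self, zero_add] at h
          simp only [PT.len, List.map_cons, List.sum_cons]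
          linarith

end Pool.Agent.Lib.H21Cube
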