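import Pool.Agent.Lib.H21Cube.T1
import Pool.Agent.Lib.H21Cube.B1

/-!
# Chunk B2 (M): two edges at a point with an angle less than 120 degrees can be improved
-/

namespace Pool.Agent.Lib.H21Cube

open Pool.Agent.Lib.H21Steiner

variable {α E : Type*} [NormedAddCommGroup E] [InnerProductSpace ℝ E]

/-- Two branches `b₁`, `b₂` at `q`. Take `w` of `tripod` (`v = q`, `s = first b₁`, `t = first b₂`),
`node w b₁ b₂` has length less than `len b₁ q + len b₂ q` from `q` (`len_first`), and join it with
`rest` by `exists_mk` for the list `node w b₁ b₂ :: rest`. -/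
theorem improve_two (y : α → E) {p q : E} {bs rest : List (PT α E)} {b₁ b₂ : PT α E}
    (hbs : bs.Perm (b₁ :: b₂ :: rest)) (h1 : first y b₁ ≠ q) (h2 : first y b₂ ≠ q)
    (h : -(1 / 2) * (‖first y b₁ - q‖ * ‖first y b₂ - q‖)
      < inner ℝ (first y b₁ - q) (first y b₂ - q)) :
    ∃ s : PT α E, s.leaves.Perm (bs.flatMap PT.leaves) ∧
      s.len y p < dist p q + (bs.map (fun b => b.len y q)).sum := by
  obtain ⟨w, hw⟩ := tripod h1 h2 h
  obtain ⟨c₁, hc₁⟩ := len_first y b₁
  obtain ⟨c₂, hc₂⟩ := len_first y b₂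
  obtain ⟨s, hs1, hs2⟩ := exists_mk y q (PT.node w b₁ b₂ :: rest) (by simp)
  refine ⟨s, ?_, ?_⟩
  · refine hs1.trans ?_
    refine List.Perm.trans ?_ (hbs.flatMap_right PT.leaves).symm
    simp [PT.leaves, List.flatMap_cons]
  · have h3 := hs2 p
    have h4 : (bs.map (fun b => b.len y q)).sum = ((b₁ :: b₂ :: rest).map (fun b => b.len y q)).sum :=
      (hbs.map _).sum_eq
    rw [h4]
    simp only [List.map_cons, List.sum_cons, PT.len] at h3 ⊢
    rw [hc₁ w, hc₂ w] at h3
    rw [hc₁ q, hc₂ q]
    linarith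

/-- The root edge (to `p`) and one branch `b` at `q`, `rest ≠ []`. Take `w` of `tripod` (`v = q`, `s = p`,
`t = first b`) and the tree `node w b s'` with `s'` of `exists_mk` for the list `rest`:
its length from `p` is at most `dist p w + len b w + dist w q + ∑ rest`. -/
theorem improve_root (y : α → E) {p q : E} {bs rest : List (PT α E)} {b : PT α E}
    (hbs : bs.Perm (b :: rest)) (hrest : rest ≠ []) (h1 : first y b ≠ q) (h2 : p ≠ q)
    (h : -(1 / 2) * (‖p - q‖ * ‖first y b - q‖) < inner ℝ (p - q) (first y b - q)) :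
    ∃ s : PT α E, s.leaves.Perm (bs.flatMap PT.leaves) ∧
      s.len y p < dist p q + (bs.map (fun b => b.len y q)).sum := by
  obtain ⟨w, hw⟩ := tripod h2 h1 h
  obtain ⟨c, hc⟩ := len_first y b
  obtain ⟨s, hs1, hs2⟩ := exists_mk y q rest hrest
  refine ⟨PT.node w b s, ?_, ?_⟩
  · refine List.Perm.trans ?_ (hbs.flatMap_right PT.leaves).symm
    simp only [PT.leaves, List.flatMap_cons]
    exact List.Perm.append_left _ hs1
  · have h3 := hs2 w
    have h4 : (bs.map (fun b => b.len y q)).sum = ((b :: rest).map (fun b => b.len y q)).sum :=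
      (hbs.map _).sum_eq
    rw [h4]
    simp only [List.map_cons, List.sum_cons, PT.len]
    rw [hc w, hc q]
    rw [dist_comm q w, dist_comm w p, dist_comm q p] at hw
    linarith

end Pool.Agent.Lib.H21Cube
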