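import Pool.Agent.Lib.H21Cube.Base

/-!
# Chunk E1 (S/M): the cube
-/

namespace Pool.Agent.Lib.H21Cube

private theorem e1_continuous_coord {d : ℕ} (k : Fin d) :
    Continuous fun x : EuclideanSpace ℝ (Fin d) => x k := by
  fun_prop

theorem isCompact_cube (d : ℕ) : IsCompact (cube d) := by
  have h1 : IsCompact (Set.pi Set.univ fun _ : Fin d => Set.Icc (0 : ℝ) 1) :=
    isCompact_univ_pi fun _ => isCompact_Icc
  have h2 : cube d = (fun f : Fin d → ℝ => (WithLp.toLp 2 f : EuclideanSpace ℝ (Fin d))) ''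
      (Set.pi Set.univ fun _ : Fin d => Set.Icc (0 : ℝ) 1) := by
    ext x
    constructor
    · intro hx
      refine ⟨fun k => x k, ?_, ?_⟩
      · intro k _
        exact ⟨(hx k).1, (hx k).2⟩
      · ext k
        rfl
    · rintro ⟨f, hf, rfl⟩ k
      exact ⟨(hf k (Set.mem_univ k)).1, (hf k (Set.mem_univ k)).2⟩
  rw [h2]
  exact h1.image (PiLp.continuous_toLp 2 _)

theorem IsVert.mem {d : ℕ} {v : EuclideanSpace ℝ (Fin d)} (h : IsVert v) : v ∈ cube d := by
  intro k
  rcases h k with h0 | h1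
  · rw [h0]
    norm_num
  · rw [h1]
    norm_num

/-- No angle at a vertex is obtuse: every coordinate of the two vectors has the same sign. -/
theorem inner_nonneg {d : ℕ} {v x z : EuclideanSpace ℝ (Fin d)} (hv : IsVert v) (hx : x ∈ cube d)
    (hz : z ∈ cube d) : 0 ≤ inner ℝ (x - v) (z - v) := by
  rw [PiLp.inner_apply]
  refine Finset.sum_nonneg fun k _ => ?_
  have hxk := hx k
  have hzk := hz k
  have e : inner ℝ ((x - v) k) ((z - v) k) = (z k - v k) * (x k - v k) := by
    rfl
  rw [e]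
  rcases hv k with h0 | h1
  · rw [h0]
    exact mul_nonneg (by linarith [hzk.1]) (by linarith [hxk.1])
  · rw [h1]
    exact mul_nonneg_of_nonpos_of_nonpos (by linarith [hzk.2]) (by linarith [hxk.2])

private theorem e1_clamp (a b : ℝ) :
    |max 0 (min 1 a) - max 0 (min 1 b)| ≤ |a - b| := by
  have h1 := abs_max_sub_max_le_max 0 (min 1 a) 0 (min 1 b)
  have h2 := abs_min_sub_min_le_max 1 a 1 b
  rw [sub_self, abs_zero, max_eq_right (abs_nonneg (min 1 a - min 1 b))] at h1
  rw [sub_self, abs_zero, max_eq_right (abs_nonneg (a - b))] at h2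
  exact h1.trans h2

/-- Clamping of the coordinates. -/
theorem exists_clamp (d : ℕ) : ∃ P : EuclideanSpace ℝ (Fin d) → EuclideanSpace ℝ (Fin d),
    (∀ x z, dist (P x) (P z) ≤ dist x z) ∧ (∀ x, P x ∈ cube d) ∧ ∀ x ∈ cube d, P x = x := by
  refine ⟨fun x => WithLp.toLp 2 fun k => max 0 (min 1 (x k)), ?_, ?_, ?_⟩
  · intro x z
    rw [EuclideanSpace.dist_eq, EuclideanSpace.dist_eq]
    refine Real.sqrt_le_sqrt (Finset.sum_le_sum fun k _ => ?_)
    refine pow_le_pow_left₀ dist_nonneg ?_ 2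
    rw [Real.dist_eq, Real.dist_eq]
    exact e1_clamp (x k) (z k)
  · intro x k
    exact ⟨le_max_left _ _, max_le zero_le_one (min_le_left _ _)⟩
  · intro x hx
    ext k
    change max 0 (min 1 (x k)) = x k
    rw [min_eq_right (hx k).2, max_eq_right (hx k).1]

end Pool.Agent.Lib.H21Cube
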