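import Pool.Agent.Lib.H21Cube.T2
import Pool.Agent.Lib.H21Cube.B2
import Pool.Agent.Lib.H21Cube.E1

/-!
# Chunk B3 (M/L): a shortest tree of vertices of the cube has no edge of length zero
-/

namespace Pool.Agent.Lib.H21Cube

open Pool.Agent.Lib.H21Steiner

variable {α : Type*} {d : ℕ}

private theorem b3_first_mem {y : α → EuclideanSpace ℝ (Fin d)} (hy : ∀ a, IsVert (y a)) :
    ∀ {t : PT α (EuclideanSpace ℝ (Fin d))}, InH (cube d) t → first y t ∈ cube d
  | PT.leaf a, _ => (hy a).mem
  | PT.node _ _ _, h => h.1

private theorem b3_angle {v x z : EuclideanSpace ℝ (Fin d)} (hv : IsVert v) (hx : x ∈ cube d)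
    (hz : z ∈ cube d) (hxv : x ≠ v) (hzv : z ≠ v) :
    -(1 / 2) * (‖x - v‖ * ‖z - v‖) < inner ℝ (x - v) (z - v) := by
  have h1 := inner_nonneg hv hx hz
  have h2 : 0 < ‖x - v‖ := norm_pos_iff.2 (sub_ne_zero.2 hxv)
  have h3 : 0 < ‖z - v‖ := norm_pos_iff.2 (sub_ne_zero.2 hzv)
  have h4 : 0 < ‖x - v‖ * ‖z - v‖ := mul_pos h2 h3
  linarith

private theorem b3_leaves {E : Type*} (q v : E) (l r : PT α E) :
    (br v l ++ br v r).flatMap PT.leaves = (PT.node q l r).leaves := by
  rw [List.flatMap_append, leaves_br, leaves_br]
  rfl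

private theorem b3_len {E : Type*} [MetricSpace E] (y : α → E) (p q : E) (l r : PT α E) :
    (PT.node q l r).len y p
      = dist p q + ((br q l ++ br q r).map (fun b => b.len y q)).sum := by
  rw [List.map_append, List.sum_append, ← len_br, ← len_br]
  simp only [PT.len]
  ring

private theorem b3_first {E : Type*} (y : α → E) (q : E) (l r : PT α E) :
    ∀ b ∈ br q l ++ br q r, first y b ≠ q ∨ ∃ a, b = PT.leaf a ∧ y a = q := by
  intro b hb
  rcases List.mem_append.1 hb with h | h
  · rcases first_br y q l b h with h1 | ⟨a, -, h2, h3⟩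
    · exact Or.inl h1
    · exact Or.inr ⟨a, h2, h3⟩
  · rcases first_br y q r b h with h1 | ⟨a, -, h2, h3⟩
    · exact Or.inl h1
    · exact Or.inr ⟨a, h2, h3⟩

private theorem b3_mem {y : α → EuclideanSpace ℝ (Fin d)} (hy : ∀ a, IsVert (y a))
    {q : EuclideanSpace ℝ (Fin d)} {l r : PT α (EuclideanSpace ℝ (Fin d))}
    (hl : InH (cube d) l) (hr : InH (cube d) r) :
    ∀ b ∈ br q l ++ br q r, first y b ∈ cube d := by
  intro b hb
  rcases List.mem_append.1 hb with h | h
  · exact b3_first_mem hy (InH_br q hl b h)
  · exact b3_first_mem hy (InH_br q hr b h)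

private theorem b3_two_le {E : Type*} (q : E) (l r : PT α E) :
    ∃ b₁ b₂ rest, (br q l ++ br q r).Perm (b₁ :: b₂ :: rest) := by
  obtain ⟨b₁, l₁, e₁⟩ := List.exists_cons_of_ne_nil (br_ne_nil q l)
  obtain ⟨b₂, l₂, e₂⟩ := List.exists_cons_of_ne_nil (br_ne_nil q r)
  refine ⟨b₁, b₂, l₁ ++ l₂, ?_⟩
  rw [e₁, e₂, List.cons_append]
  exact List.Perm.cons b₁ List.perm_middle

/-- At a terminal. If `first y t = p` then `t = node p l r` (a leaf is away from `p`), the list
`bs = br p l ++ br p r` has at least two elements, none of them is a leaf at `p` (`first_br`), their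
directions have inner product `≥ 0 > -(1/2) ..` (`inner_nonneg`), and `improve_two` (with `q = p`)
contradicts `Opt`. -/
theorem first_ne {y : α → EuclideanSpace ℝ (Fin d)} {t : PT α (EuclideanSpace ℝ (Fin d))}
    {p : EuclideanSpace ℝ (Fin d)} (hy : ∀ a, IsVert (y a)) (hp : IsVert p)
    (hpl : ∀ a ∈ t.leaves, y a ≠ p) (hH : InH (cube d) t) (ho : Opt y t p) : first y t ≠ p := by
  intro h
  cases t with
  | leaf a => exact hpl a (by simp [PT.leaves]) h
  | node q l r =>
    have h' : q = p := h
    subst h'
    obtain ⟨-, hl, hr⟩ := hH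
    obtain ⟨b₁, b₂, rest, hbs⟩ := b3_two_le q l r
    have hne : ∀ b ∈ br q l ++ br q r, first y b ≠ q := by
      intro b hb
      rcases List.mem_append.1 hb with h | h
      · rcases first_br y q l b h with h1 | ⟨a, h2, -, h3⟩
        · exact h1
        · exact absurd h3 (hpl a (by simp [PT.leaves, h2]))
      · rcases first_br y q r b h with h1 | ⟨a, h2, -, h3⟩
        · exact h1
        · exact absurd h3 (hpl a (by simp [PT.leaves, h2]))
    have m1 : b₁ ∈ br q l ++ br q r := hbs.mem_iff.2 (by simp)
    have m2 : b₂ ∈ br q l ++ br q r := hbs.mem_iff.2 (by simp)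
    obtain ⟨s, hs1, hs2⟩ := improve_two y (p := q) hbs (hne _ m1) (hne _ m2)
      (b3_angle hp (b3_mem hy hl hr _ m1) (b3_mem hy hl hr _ m2) (hne _ m1) (hne _ m2))
    rw [b3_leaves q] at hs1
    rw [← b3_len] at hs2
    exact absurd hs2 (not_lt.2 (ho s hs1))

/-- Induction on `t`. For `t = node q l r` (so `q ≠ p`) let `bs = br q l ++ br q r`; `l` and `r` are `Opt`
for the root point `q`. Suppose `first y l = q` or `first y r = q`.
(Z) Some `PT.leaf a` is in `bs` with `y a = q`: then `q` is a vertex, all other elements of `bs` start away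
from `q` (no two labels are equal, `y` is injective), `bs` has another element `b`, and `improve_root` with
`b` (`inner_nonneg` at the vertex `q`) gives a shorter tree.
(N) Otherwise `bs` has at least three elements `b₁ b₂ b₃` (a leaf `l` with `first y l = q` is in case (Z), so
one of `l`, `r` is a node at `q` and has at least two branches), all start away from `q`; `four` for
`p - q` and the three directions, and then `improve_root` or `improve_two`. -/
theorem pos_of_opt {y : α → EuclideanSpace ℝ (Fin d)} (hy : ∀ a, IsVert (y a))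
    (hinj : Function.Injective y) : ∀ (t : PT α (EuclideanSpace ℝ (Fin d)))
    (p : EuclideanSpace ℝ (Fin d)), p ∈ cube d → InH (cube d) t → t.leaves.Nodup → Opt y t p →
    first y t ≠ p → t.Pos y p := by
  intro t
  induction t with
  | leaf a =>
    intro p _ _ _ _ h
    exact fun h' => h h'.symm
  | node q l r ihl ihr =>
    intro p hp hH hnd ho hq
    have hqp : q ≠ p := hq
    obtain ⟨hqH, hl, hr⟩ := hH
    have hndl : l.leaves.Nodup := (List.nodup_append.1 hnd).1
    have hndr : r.leaves.Nodup := (List.nodup_append.1 hnd).2.1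
    have hol : Opt y l q := by
      intro l' hl'
      have h1 := ho (PT.node q l' r) (List.Perm.append_right _ hl')
      simp only [PT.len] at h1
      linarith
    have hor : Opt y r q := by
      intro r' hr'
      have h1 := ho (PT.node q l r') (List.Perm.append_left _ hr')
      simp only [PT.len] at h1
      linarith
    have hno : ∀ s : PT α (EuclideanSpace ℝ (Fin d)),
        s.leaves.Perm ((br q l ++ br q r).flatMap PT.leaves) →
        ¬ s.len y p < dist p q + ((br q l ++ br q r).map (fun b => b.len y q)).sum := by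
      intro s h1 h2
      rw [b3_leaves q] at h1
      rw [← b3_len] at h2
      exact absurd h2 (not_lt.2 (ho s h1))
    have hmem := b3_mem (q := q) hy hl hr
    have hfirst := b3_first y q l r
    have hleaves := b3_leaves q q l r
    obtain ⟨c₁, c₂, rest', hc⟩ := b3_two_le q l r
    -- two branches and the root edge
    have hroot : ∀ b rest, (br q l ++ br q r).Perm (b :: rest) → first y b ≠ q →
        ¬ -(1 / 2) * (‖p - q‖ * ‖first y b - q‖) < inner ℝ (p - q) (first y b - q) := by
      intro b rest hbs h1 h2
      have hrest : rest ≠ [] := by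
        rintro rfl
        have h3 := hbs.length_eq
        have h4 := hc.length_eq
        rw [h4] at h3
        simp at h3
      obtain ⟨s, hs1, hs2⟩ := improve_root y hbs hrest h1 hqp.symm h2
      exact hno s hs1 hs2
    have htwo : ∀ b₁ b₂ rest, (br q l ++ br q r).Perm (b₁ :: b₂ :: rest) → first y b₁ ≠ q →
        first y b₂ ≠ q →
        ¬ -(1 / 2) * (‖first y b₁ - q‖ * ‖first y b₂ - q‖)
          < inner ℝ (first y b₁ - q) (first y b₂ - q) := by
      intro b₁ b₂ rest hbs h1 h2 h3
      obtain ⟨s, hs1, hs2⟩ := improve_two y (p := p) hbs h1 h2 h3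
      exact hno s hs1 hs2
    -- case Z does not occur
    have hZ : ∀ a, PT.leaf a ∈ br q l ++ br q r → y a ≠ q := by
      intro a ha haq
      have hvq : IsVert q := haq ▸ hy a
      obtain ⟨L₁, L₂, e⟩ := List.append_of_mem ha
      have hp1 : (br q l ++ br q r).Perm (PT.leaf a :: (L₁ ++ L₂)) := by
        rw [e]
        exact List.perm_middle
      cases hL : L₁ ++ L₂ with
      | nil =>
        rw [hL] at hp1
        have h3 := hp1.length_eq
        have h4 := hc.length_eq
        rw [h4] at h3
        simp at h3
      | cons b rest =>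
        rw [hL] at hp1
        have hp2 : (br q l ++ br q r).Perm (b :: PT.leaf a :: rest) :=
          hp1.trans (List.Perm.swap _ _ _)
        have hb : b ∈ br q l ++ br q r := hp2.mem_iff.2 (by simp)
        have hbq : first y b ≠ q := by
          rcases hfirst b hb with h | ⟨a', h1, h2⟩
          · exact h
          · exfalso
            have h3 : a' = a := hinj (h2.trans haq.symm)
            subst h3
            have h4 := List.Perm.flatMap_right PT.leaves hp1
            rw [hleaves] at h4
            have h5 := h4.nodup_iff.1 hnd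
            rw [h1] at h5
            simp [PT.leaves] at h5
        exact hroot b _ hp2 hbq (b3_angle hvq hp (hmem b hb) hqp.symm hbq)
    have hall : ∀ b ∈ br q l ++ br q r, first y b ≠ q := by
      intro b hb
      rcases hfirst b hb with h | ⟨a, h1, h2⟩
      · exact h
      · subst h1
        exact absurd h2 (hZ a hb)
    -- at most two branches
    have hlen : ¬ 3 ≤ (br q l ++ br q r).length := by
      intro h3
      obtain ⟨b₁, b₂, b₃, rest, e⟩ : ∃ b₁ b₂ b₃ rest,
          br q l ++ br q r = b₁ :: b₂ :: b₃ :: rest := by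
        match hb : br q l ++ br q r, h3 with
        | b₁ :: b₂ :: b₃ :: rest, _ => exact ⟨b₁, b₂, b₃, rest, rfl⟩
        | [], h => simp at h
        | [_], h => simp at h
        | [_, _], h => simp at h
      have p1 : (br q l ++ br q r).Perm (b₁ :: b₂ :: b₃ :: rest) := by rw [e]
      have p2 : (br q l ++ br q r).Perm (b₂ :: b₃ :: b₁ :: rest) := by
        rw [e]
        exact (List.Perm.swap _ _ _).trans (List.Perm.cons _ (List.Perm.swap _ _ _))
      have p3 : (br q l ++ br q r).Perm (b₁ :: b₃ :: b₂ :: rest) := by
        rw [e]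
        exact List.Perm.cons _ (List.Perm.swap _ _ _)
      have p4 : (br q l ++ br q r).Perm (b₃ :: b₁ :: b₂ :: rest) :=
        p3.trans (List.Perm.swap _ _ _)
      have f1 := hall b₁ (p1.mem_iff.2 (by simp))
      have f2 := hall b₂ (p1.mem_iff.2 (by simp))
      have f3 := hall b₃ (p1.mem_iff.2 (by simp))
      have g1 := hroot b₁ _ p1 f1
      have g2 := hroot b₂ _ p2 f2
      have g3 := hroot b₃ _ p4 f3
      have g4 := htwo b₁ b₂ _ p1 f1 f2
      have g5 := htwo b₂ b₃ _ p2 f2 f3
      have g6 := htwo b₁ b₃ _ p3 f1 f3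
      obtain ⟨i, j, hij, h⟩ := four
        ![p - q, first y b₁ - q, first y b₂ - q, first y b₃ - q] (by
          intro i
          fin_cases i
          · exact sub_ne_zero.2 hqp.symm
          · exact sub_ne_zero.2 f1
          · exact sub_ne_zero.2 f2
          · exact sub_ne_zero.2 f3)
      have hsymm : ∀ x z : EuclideanSpace ℝ (Fin d),
          ¬ -(1 / 2) * (‖x‖ * ‖z‖) < inner ℝ x z → ¬ -(1 / 2) * (‖z‖ * ‖x‖) < inner ℝ z x := by
        intro x z hxz
        rw [mul_comm ‖z‖ ‖x‖, real_inner_comm]
        exact hxz
      fin_cases i <;> fin_cases j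
      · exact hij rfl
      · exact g1 h
      · exact g2 h
      · exact g3 h
      · exact hsymm _ _ g1 h
      · exact hij rfl
      · exact g4 h
      · exact g6 h
      · exact hsymm _ _ g2 h
      · exact hsymm _ _ g4 h
      · exact hij rfl
      · exact g5 h
      · exact hsymm _ _ g3 h
      · exact hsymm _ _ g6 h
      · exact hsymm _ _ g5 h
      · exact hij rfl
    have hkey : ∀ s : PT α (EuclideanSpace ℝ (Fin d)), first y s = q →
        (∃ a, s = PT.leaf a ∧ y a = q) ∨ 2 ≤ (br q s).length := by
      intro s hs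
      cases s with
      | leaf a => exact Or.inl ⟨a, rfl, hs⟩
      | node q' s₁ s₂ =>
        have h' : q' = q := hs
        subst h'
        right
        rw [br_node_self, List.length_append]
        have h1 := List.length_pos_of_ne_nil (br_ne_nil q' s₁)
        have h2 := List.length_pos_of_ne_nil (br_ne_nil q' s₂)
        omega
    have hleaf : ∀ a, (PT.leaf a : PT α (EuclideanSpace ℝ (Fin d))) ∈ br q (PT.leaf a) := by
      intro a
      simp [br]
    have kl : first y l ≠ q := by
      intro h
      rcases hkey l h with ⟨a, h1, h2⟩ | h1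
      · exact hZ a (List.mem_append.2 (Or.inl (by rw [h1]; exact hleaf a))) h2
      · apply hlen
        rw [List.length_append]
        have h2 := List.length_pos_of_ne_nil (br_ne_nil q r)
        omega
    have kr : first y r ≠ q := by
      intro h
      rcases hkey r h with ⟨a, h1, h2⟩ | h1
      · exact hZ a (List.mem_append.2 (Or.inr (by rw [h1]; exact hleaf a))) h2
      · apply hlen
        rw [List.length_append]
        have h2 := List.length_pos_of_ne_nil (br_ne_nil q l)
        omega
    exact ⟨hqp.symm, ihl q hqH hl hndl hol kl, ihr q hqH hr hndr hor kr⟩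

end Pool.Agent.Lib.H21Cube
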