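import Pool.Agent.Lib.H21Steiner.Bridge
import Pool.Agent.Lib.H21Steiner.Cont
import Pool.Agent.Lib.H21Steiner.PTBasic
import Pool.Agent.Lib.H21Steiner.BTBasic

/-!
# Steiner trees of vertices of the cube: definitions

`PT α E` are the drawn binary trees of `H21Steiner`, `BT α` the binary trees with labelled leaves.
-/

namespace Pool.Agent.Lib.H21Cube

open Pool.Agent.Lib.H21Steiner

variable {α E : Type*}

/-- The tree without the positions. -/
def shape : PT α E → BT α
  | PT.leaf a => BT.leaf a
  | PT.node _ l r => BT.node (shape l) (shape r)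

/-- All the inner nodes are in `H`. -/
def InH (H : Set E) : PT α E → Prop
  | PT.leaf _ => True
  | PT.node q l r => q ∈ H ∧ InH H l ∧ InH H r

/-- The other end of the root edge. -/
def first (y : α → E) : PT α E → E
  | PT.leaf a => y a
  | PT.node q _ _ => q

/-- The drawn tree `t` with root point `p` is a shortest one for its leaves. -/
def Opt [PseudoMetricSpace E] (y : α → E) (t : PT α E) (p : E) : Prop :=
  ∀ t' : PT α E, t'.leaves.Perm t.leaves → t.len y p ≤ t'.len y p

/-- Move the inner nodes by the map `P`. -/
def pm (P : E → E) : PT α E → PT α E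
  | PT.leaf a => PT.leaf a
  | PT.node q l r => PT.node (P q) (pm P l) (pm P r)

/-- The branches that start at the point `v`: the maximal subtrees that are a leaf or start at a
point different from `v`. -/
noncomputable def br (v : E) : PT α E → List (PT α E)
  | PT.leaf a => [PT.leaf a]
  | PT.node q l r => by
      classical
      exact if q = v then br v l ++ br v r else [PT.node q l r]

/-- The cube. -/
def cube (d : ℕ) : Set (EuclideanSpace ℝ (Fin d)) := {x | ∀ k, 0 ≤ x k ∧ x k ≤ 1}

/-- The point `v` is a vertex of the cube. -/
def IsVert {d : ℕ} (v : EuclideanSpace ℝ (Fin d)) : Prop := ∀ k, v k = 0 ∨ v k = 1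

/-- The permutation of the vertices of a topology given by a permutation of the terminals. -/
def vperm {n : ℕ} (σ : Equiv.Perm (Fin n)) : Vert n ≃ Vert n :=
  Equiv.sumCongr σ (Equiv.refl (Fin (n - 2)))

end Pool.Agent.Lib.H21Cube
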