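import Pool.Agent.Lib.H21Cube.Base

/-!
# Chunk C1 (M): an automorphism of a tree of degrees at most three which fixes a leaf has an order which is
a power of two
-/

namespace Pool.Agent.Lib.H21Cube

private theorem adj_iter {V : Type*} {G : SimpleGraph V} (ψ : G ≃g G) (n : ℕ) {a b : V}
    (h : G.Adj a b) : G.Adj (ψ^[n] a) (ψ^[n] b) := by
  induction n with
  | zero => exact h
  | succ n ih =>
      rw [Function.iterate_succ_apply', Function.iterate_succ_apply']
      exact ψ.map_rel_iff.2 ih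

private theorem pow_two_step {V : Type*} [Finite V] {G : SimpleGraph V}
    (hdeg : ∀ v, (G.neighborSet v).ncard ≤ 3) (ψ : G ≃g G) {w w' : V} (hadj : G.Adj w w') {k : ℕ}
    (h1 : ψ^[2 ^ k] w = w) (h2 : ∀ u, G.Adj w u → ψ^[2 ^ k] u = u) :
    ψ^[2 ^ (k + 1)] w' = w' ∧ ∀ u, G.Adj w' u → ψ^[2 ^ (k + 1)] u = u := by
  set θ : V → V := ψ^[2 ^ k] with hθ
  have hinj : Function.Injective θ := ψ.injective.iterate _
  have hθθ : ∀ x, ψ^[2 ^ (k + 1)] x = θ (θ x) := by
    intro x
    rw [pow_succ, mul_two, Function.iterate_add_apply]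
  have hw' : θ w' = w' := h2 w' hadj
  refine ⟨by rw [hθθ, hw', hw'], fun u hu => ?_⟩
  rw [hθθ]
  by_contra hne
  have hu1 : G.Adj w' (θ u) := by
    have := adj_iter ψ (2 ^ k) hu
    rw [← hθ, hw'] at this
    exact this
  have hu2 : G.Adj w' (θ (θ u)) := by
    have := adj_iter ψ (2 ^ k) hu1
    rw [← hθ, hw'] at this
    exact this
  have a1 : θ u ≠ u := fun h => hne (by rw [h, h])
  have a2 : θ (θ u) ≠ θ u := fun h => a1 (hinj h)
  have a3 : w ≠ u := fun h => a1 (by rw [← h, h1])
  have a4 : w ≠ θ u := fun h => a3 (hinj (by rw [h1, ← h]))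
  have a5 : w ≠ θ (θ u) := fun h => a4 (hinj (by rw [h1, ← h]))
  have hsub : ({w, u, θ u, θ (θ u)} : Set V) ⊆ G.neighborSet w' := by
    intro x hx
    simp only [Set.mem_insert_iff, Set.mem_singleton_iff] at hx
    rcases hx with rfl | rfl | rfl | rfl
    · exact hadj.symm
    · exact hu
    · exact hu1
    · exact hu2
  have hcard : ({w, u, θ u, θ (θ u)} : Set V).ncard = 4 := by
    rw [Set.ncard_insert_of_notMem, Set.ncard_insert_of_notMem, Set.ncard_pair (Ne.symm a2)]
    · simp only [Set.mem_insert_iff, Set.mem_singleton_iff, not_or]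
      exact ⟨Ne.symm a1, fun h => hne h.symm⟩
    · simp only [Set.mem_insert_iff, Set.mem_singleton_iff, not_or]
      exact ⟨a3, a4, a5⟩
  have h3 := Set.ncard_le_ncard hsub (Set.toFinite _)
  have h4 := hdeg w'
  omega

/-- Claim by induction on `k`: if there is a walk of length `k` from `ρ` to `w` and `G.Adj w u` then
`ψ^(2^k)` fixes `w` and `u`. `k = 0`: `u` is the only neighbour of `ρ`. Step: let `θ = ψ^(2^k)`, the walk goes
to `w` and then to `w'`, `θ` fixes `w` and `w'`; for a neighbour `u` of `w'` with `θ² u ≠ u` the four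
points `w`, `u`, `θ u`, `θ² u` would be different neighbours of `w'`. Then take the maximum of the `k` for
the finitely many vertices. -/
theorem pow_two_aut {V : Type*} [Finite V] {G : SimpleGraph V} (hc : G.Connected)
    (hdeg : ∀ v, (G.neighborSet v).ncard ≤ 3) (ρ : V) (hρ : (G.neighborSet ρ).ncard = 1)
    (ψ : G ≃g G) (h : ψ ρ = ρ) : ∃ m : ℕ, ∀ v, (ψ^[2 ^ m]) v = v := by
  have key : ∀ w, ∃ k : ℕ, ψ^[2 ^ k] w = w ∧ ∀ u, G.Adj w u → ψ^[2 ^ k] u = u := by
    intro w
    have hr : Relation.ReflTransGen G.Adj ρ w :=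
      (SimpleGraph.reachable_iff_reflTransGen ρ w).1 (hc.preconnected ρ w)
    induction hr with
    | refl =>
        refine ⟨0, by simpa using h, fun u hu => ?_⟩
        obtain ⟨a, ha⟩ := Set.ncard_eq_one.1 hρ
        have h1 : u = a := by
          have : u ∈ G.neighborSet ρ := hu
          rw [ha] at this
          exact this
        have h2 : ψ u = a := by
          have h3 : G.Adj (ψ ρ) (ψ u) := ψ.map_rel_iff.2 hu
          rw [h] at h3
          have : ψ u ∈ G.neighborSet ρ := h3
          rw [ha] at this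
          exact this
        rw [pow_zero, Function.iterate_one, h2, h1]
    | tail _ hab ih =>
        obtain ⟨k, h1, h2⟩ := ih
        exact ⟨k + 1, pow_two_step hdeg ψ hab h1 h2⟩
  choose k hk _ using key
  obtain ⟨M, hM⟩ := (Set.finite_range k).bddAbove
  refine ⟨M, fun v => ?_⟩
  have h1 : Function.IsPeriodicPt ψ (2 ^ k v) v := hk v
  have h2 : k v ≤ M := hM ⟨v, rfl⟩
  exact h1.trans_dvd (pow_dvd_pow 2 h2)

end Pool.Agent.Lib.H21Cube
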