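import Pool.Agent.Lib.H21Cube.Base

/-!
# Chunk I1 (M): full topologies under a permutation of the terminals
-/

namespace Pool.Agent.Lib.H21Cube

open Pool.Agent.Lib.H21Steiner

theorem I1_ncard {V W : Type*} (e : V ≃ W) (G : SimpleGraph V) (v : V) :
    ((G.map e.toEmbedding).neighborSet (e v)).ncard = (G.neighborSet v).ncard := by
  have h : (G.map e.toEmbedding).neighborSet (e v) = e '' G.neighborSet v := by
    ext w
    simp only [SimpleGraph.mem_neighborSet, Set.mem_image]
    constructor
    · intro h
      refine ⟨e.symm w, ?_, e.apply_symm_apply w⟩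
      have h' := (SimpleGraph.Iso.map e G).symm.map_adj_iff.mpr h
      have h1 : (SimpleGraph.Iso.map e G).symm (e v) = v := e.symm_apply_apply v
      rw [h1] at h'
      exact h'
    · rintro ⟨b, hb, rfl⟩
      exact (SimpleGraph.Iso.map e G).map_adj_iff.mpr hb
  rw [h, Set.ncard_image_of_injective _ e.injective]

theorem isFullTopology_map {n : ℕ} (σ : Equiv.Perm (Fin n)) {G : SimpleGraph (Vert n)}
    (hG : IsFullTopology G) : IsFullTopology (G.map (vperm σ).toEmbedding) := by
  obtain ⟨h1, h2, h3⟩ := hG
  refine ⟨(SimpleGraph.Iso.map (vperm σ) G).isTree_iff.mp h1, fun i => ?_, fun s => ?_⟩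
  · have h : (Sum.inl i : Vert n) = vperm σ (Sum.inl (σ.symm i)) := by
      simp [vperm]
    rw [h, I1_ncard]
    exact h2 _
  · have h : (Sum.inr s : Vert n) = vperm σ (Sum.inr s) := by
      simp [vperm]
    rw [h, I1_ncard]
    exact h3 _

end Pool.Agent.Lib.H21Cube
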