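import Pool.Agent.Lib.H21Cube.C1
import Pool.Agent.Lib.H21Cube.I1

/-!
# Chunk C2 (M/L): the number of topologies in an orbit
-/

namespace Pool.Agent.Lib.H21Cube

open Pool.Agent.Lib.H21Steiner

/-- The permutations of the terminals which come from an automorphism of the topology. -/
private def c2stab {n : ℕ} (G : SimpleGraph (Vert n)) {Γ : Type*} [Group Γ]
    (ι : Γ →* Equiv.Perm (Fin n)) : Subgroup Γ where
  carrier := {h | ∃ ψ : G ≃g G, ∀ i, ψ (Sum.inl i) = Sum.inl (ι h i)}
  one_mem' := ⟨SimpleGraph.Iso.refl, fun i => by rw [map_one]; rfl⟩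
  mul_mem' := by
    rintro a b ⟨φ, hφ⟩ ⟨ψ, hψ⟩
    refine ⟨ψ.trans φ, fun i => ?_⟩
    have h1 : (ψ.trans φ) (Sum.inl i) = φ (ψ (Sum.inl i)) := rfl
    rw [h1, hψ, hφ, map_mul]
    rfl
  inv_mem' := by
    rintro a ⟨φ, hφ⟩
    refine ⟨φ.symm, fun i => ?_⟩
    have h1 : φ (Sum.inl (ι a⁻¹ i)) = Sum.inl i := by
      rw [hφ, ← Equiv.Perm.mul_apply, ← map_mul, mul_inv_cancel, map_one]
      rfl
    rw [← h1]
    exact φ.symm_apply_apply _

/-- The isomorphism of a topology with the topology with permuted terminals. -/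
private noncomputable def c2iso {n : ℕ} (G : SimpleGraph (Vert n)) (σ : Equiv.Perm (Fin n)) :
    G ≃g G.map (vperm σ).toEmbedding := SimpleGraph.Iso.map (vperm σ) G

private theorem c2iso_inl {n : ℕ} (G : SimpleGraph (Vert n)) (σ : Equiv.Perm (Fin n)) (i : Fin n) :
    c2iso G σ (Sum.inl i) = Sum.inl (σ i) := rfl

private theorem c2iso_symm_inl {n : ℕ} (G : SimpleGraph (Vert n)) (σ : Equiv.Perm (Fin n))
    (i : Fin n) : (c2iso G σ).symm (Sum.inl i) = Sum.inl (σ⁻¹ i) := by
  have h1 : c2iso G σ (Sum.inl (σ⁻¹ i)) = Sum.inl i := by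
    rw [c2iso_inl, ← Equiv.Perm.mul_apply, mul_inv_cancel]
    rfl
  rw [← h1]
  exact (c2iso G σ).symm_apply_apply _

private theorem c2same {n : ℕ} {G : SimpleGraph (Vert n)} {Γ : Type*} [Group Γ]
    {ι : Γ →* Equiv.Perm (Fin n)} {g g' : Γ}
    (h : SameTopology (G.map (vperm (ι g)).toEmbedding) (G.map (vperm (ι g')).toEmbedding)) :
    g'⁻¹ * g ∈ c2stab G ι := by
  obtain ⟨φ, hφ⟩ := h
  refine ⟨((c2iso G (ι g)).trans φ).trans (c2iso G (ι g')).symm, fun i => ?_⟩
  have h1 : (((c2iso G (ι g)).trans φ).trans (c2iso G (ι g')).symm) (Sum.inl i)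
      = (c2iso G (ι g')).symm (φ (c2iso G (ι g) (Sum.inl i))) := rfl
  rw [h1, c2iso_inl, hφ, c2iso_symm_inl, map_mul, map_inv]
  rfl

private theorem c2same' {n : ℕ} {G : SimpleGraph (Vert n)} {Γ : Type*} [Group Γ]
    {ι : Γ →* Equiv.Perm (Fin n)} {g g' : Γ} (h : g'⁻¹ * g ∈ c2stab G ι) :
    SameTopology (G.map (vperm (ι g)).toEmbedding) (G.map (vperm (ι g')).toEmbedding) := by
  obtain ⟨ψ, hψ⟩ := h
  refine ⟨((c2iso G (ι g)).symm.trans ψ).trans (c2iso G (ι g')), fun i => ?_⟩
  have h1 : (((c2iso G (ι g)).symm.trans ψ).trans (c2iso G (ι g'))) (Sum.inl i)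
      = (c2iso G (ι g')) (ψ ((c2iso G (ι g)).symm (Sum.inl i))) := rfl
  have h2 : (ι g') ((ι (g'⁻¹ * g)) ((ι g)⁻¹ i)) = i := by
    rw [← map_inv, ← Equiv.Perm.mul_apply, ← Equiv.Perm.mul_apply, ← map_mul, ← map_mul]
    have h3 : g' * (g'⁻¹ * g) * g⁻¹ = 1 := by group
    rw [h3, map_one]
    rfl
  rw [h1, c2iso_symm_inl, hψ, c2iso_inl, h2]

private theorem c2pgroup {n : ℕ} {G : SimpleGraph (Vert n)} (hG : IsFullTopology G) {Γ : Type*}
    [Group Γ] (ι : Γ →* Equiv.Perm (Fin n)) (hι : Function.Injective ι) (r : Fin n)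
    (hr : ∀ g, ι g r = r) : IsPGroup 2 (c2stab G ι) := by
  rintro ⟨h, ψ, hψ⟩
  have hdeg : ∀ v, (G.neighborSet v).ncard ≤ 3 := by
    rintro (i | s)
    · rw [hG.2.1 i]
      norm_num
    · rw [hG.2.2 s]
  obtain ⟨m, hm⟩ := pow_two_aut hG.1.1 hdeg (Sum.inl r) (hG.2.1 r) ψ (by rw [hψ, hr])
  refine ⟨m, Subtype.ext (hι (Equiv.ext fun i => ?_))⟩
  have h1 : ∀ k : ℕ, (ψ^[k]) (Sum.inl i) = Sum.inl (ι (h ^ k) i) := by
    intro k
    induction k with
    | zero => simp
    | succ k ih =>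
      rw [Function.iterate_succ_apply', ih, hψ, pow_succ', map_mul]
      rfl
  have h2 : (Sum.inl (ι (h ^ (2 ^ m)) i) : Vert n) = Sum.inl i := by
    rw [← h1, hm]
  have h3 : ι (h ^ (2 ^ m)) i = i := Sum.inl_injective h2
  simpa using h3

/-- Let `H` be the subgroup of the `g` with `SameTopology G (G.map (vperm (ι g)))`. Cosets of `H` give
different topologies, so the number of topologies is at least the index of `H`. `H` is a 2-group: for
`g ∈ H` one gets an automorphism `ψ` of `G` with `ψ (inl i) = inl (ι g⁻¹ i)`, so by `pow_two_aut` (root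
`inl r`) a power of two kills `ι g⁻¹`, so `g` (`ι` injective). So `card H = 2^s`, and `m ∣ card Γ =
index * 2^s` with `m` odd gives `m ∣ index`, `m ≤ index`. -/
theorem count {n : ℕ} {G : SimpleGraph (Vert n)} (hG : IsFullTopology G) {Γ : Type*} [Group Γ]
    [Finite Γ] (ι : Γ →* Equiv.Perm (Fin n)) (hι : Function.Injective ι) (r : Fin n)
    (hr : ∀ g, ι g r = r) (S : Set (SimpleGraph (Vert n)))
    (hS : ∀ g, G.map (vperm (ι g)).toEmbedding ∈ S) {m : ℕ} (hodd : Odd m)
    (hm : m ∣ Nat.card Γ) : (m : ℕ∞) ≤ (Quotient.mk (topologySetoid n) '' S).encard := by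
  have hp := c2pgroup hG ι hι r hr
  have : Fact (Nat.Prime 2) := ⟨Nat.prime_two⟩
  obtain ⟨s, hs⟩ := IsPGroup.iff_card.1 hp
  have hidx : m ∣ (c2stab G ι).index := by
    have h1 := Subgroup.card_mul_index (c2stab G ι)
    rw [hs] at h1
    rw [← h1] at hm
    exact (Nat.Coprime.pow_right s (Nat.coprime_two_right.2 hodd)).dvd_of_dvd_mul_left hm
  have hle : m ≤ (c2stab G ι).index :=
    Nat.le_of_dvd (Nat.pos_of_ne_zero Subgroup.index_ne_zero_of_finite) hidx
  -- the map from the cosets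
  let f : Γ ⧸ c2stab G ι → Quotient (topologySetoid n) :=
    Quotient.lift (fun g => Quotient.mk (topologySetoid n) (G.map (vperm (ι g)).toEmbedding))
      (by
        intro a b hab
        have h1 : a⁻¹ * b ∈ c2stab G ι := QuotientGroup.leftRel_apply.1 hab
        apply Quotient.sound
        apply c2same'
        have h2 := (c2stab G ι).inv_mem h1
        rwa [mul_inv_rev, inv_inv] at h2)
  have hf : Function.Injective f := by
    intro x y hxy
    induction x using QuotientGroup.induction_on with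
    | H a =>
      induction y using QuotientGroup.induction_on with
      | H b =>
        have h1 : SameTopology (G.map (vperm (ι a)).toEmbedding)
            (G.map (vperm (ι b)).toEmbedding) := Quotient.exact hxy
        have h2 := c2same h1
        rw [QuotientGroup.eq]
        have h3 := (c2stab G ι).inv_mem h2
        rwa [mul_inv_rev, inv_inv] at h3
  have hsub : Set.range f ⊆ Quotient.mk (topologySetoid n) '' S := by
    rintro _ ⟨x, rfl⟩
    induction x using QuotientGroup.induction_on with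
    | H a => exact ⟨_, hS a, rfl⟩
  have hcard : (Set.range f).encard = ((c2stab G ι).index : ℕ∞) := by
    rw [← Set.image_univ, hf.encard_image, Set.encard_univ, ENat.card_eq_coe_natCard]
    rfl
  calc (m : ℕ∞) ≤ ((c2stab G ι).index : ℕ∞) := by exact_mod_cast hle
    _ = (Set.range f).encard := hcard.symm
    _ ≤ _ := Set.encard_le_encard hsub

end Pool.Agent.Lib.H21Cube
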