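import Pool.Agent.Lib.H21Cube.Base

/-!
# Chunk E2 (M): shortest drawings of a given binary tree in a compact set
-/

namespace Pool.Agent.Lib.H21Cube

open Pool.Agent.Lib.H21Steiner

variable {α E : Type*}

/-- Induction on `τ`. For a node: `q ↦ dist p q + m_l q + m_r q` is continuous (the first property makes
`m_l`, `m_r` Lipschitz) and has a minimum on `H`; define `m p` as this minimum. -/
theorem exists_shape_min [MetricSpace E] {H : Set E} (hH : IsCompact H) (hne : H.Nonempty)
    (y : α → E) : ∀ τ : BT α, ∃ m : E → ℝ, (∀ p p', m p ≤ m p' + dist p p') ∧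
      (∀ p, ∃ t : PT α E, shape t = τ ∧ InH H t ∧ t.len y p = m p) ∧
      ∀ p (t : PT α E), shape t = τ → InH H t → m p ≤ t.len y p := by
  intro τ
  induction τ with
  | leaf a =>
    refine ⟨fun p => dist p (y a), ?_, ?_, ?_⟩
    · intro p p'
      rw [add_comm]
      exact dist_triangle _ _ _
    · intro p
      exact ⟨PT.leaf a, rfl, trivial, rfl⟩
    · intro p t ht _
      cases t with
      | leaf b =>
        simp only [shape, BT.leaf.injEq] at ht
        subst ht
        exact le_rfl
      | node q l r => simp [shape] at ht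
  | node l r ihl ihr =>
    obtain ⟨ml, hl1, hl2, hl3⟩ := ihl
    obtain ⟨mr, hr1, hr2, hr3⟩ := ihr
    have cl : Continuous ml := (LipschitzWith.of_le_add hl1).continuous
    have cr : Continuous mr := (LipschitzWith.of_le_add hr1).continuous
    have hQ : ∀ p, ∃ q ∈ H, ∀ q' ∈ H, dist p q + ml q + mr q ≤ dist p q' + ml q' + mr q' := by
      intro p
      have hc : Continuous fun q => dist p q + ml q + mr q :=
        ((continuous_const.dist continuous_id).add cl).add cr
      obtain ⟨q, hq, hmin⟩ := hH.exists_isMinOn hne hc.continuousOn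
      exact ⟨q, hq, fun q' hq' => hmin hq'⟩
    choose Q hQH hQ using hQ
    refine ⟨fun p => dist p (Q p) + ml (Q p) + mr (Q p), ?_, ?_, ?_⟩
    · intro p p'
      have h1 := hQ p (Q p') (hQH p')
      have h2 := dist_triangle p p' (Q p')
      simp only
      linarith
    · intro p
      obtain ⟨tl, a1, a2, a3⟩ := hl2 (Q p)
      obtain ⟨tr, b1, b2, b3⟩ := hr2 (Q p)
      refine ⟨PT.node (Q p) tl tr, ?_, ⟨hQH p, a2, b2⟩, ?_⟩
      · simp only [shape, a1, b1]
      · simp only [PT.len, a3, b3]
    · intro p t ht hH
      cases t with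
      | leaf b => simp [shape] at ht
      | node q tl tr =>
        simp only [shape, BT.node.injEq] at ht
        obtain ⟨h1, h2, h3⟩ := hH
        have e1 := hl3 q tl ht.1 h2
        have e2 := hr3 q tr ht.2 h3
        have e3 := hQ p q h1
        simp only [PT.len]
        linarith

end Pool.Agent.Lib.H21Cube
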