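import Pool.Agent.Lib.H21Cube.Base

/-!
# Chunk E3 (S/M): there are finitely many binary trees with at most `k` leaves
-/

namespace Pool.Agent.Lib.H21Cube

open Pool.Agent.Lib.H21Steiner

theorem leaves_shape {α E : Type*} (t : PT α E) : (shape t).leaves = t.leaves := by
  induction t with
  | leaf a => rfl
  | node q l r ihl ihr =>
    show (shape l).leaves ++ (shape r).leaves = l.leaves ++ r.leaves
    rw [ihl, ihr]

private theorem E3_length_pos {α : Type*} (τ : BT α) : 1 ≤ τ.leaves.length := by
  induction τ with
  | leaf a => exact le_refl 1
  | node l r ihl ihr =>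
    show 1 ≤ (l.leaves ++ r.leaves).length
    rw [List.length_append]
    omega

/-- Induction on `k`: a tree with at most `k + 1` leaves is a leaf or `node l r` with `l`, `r` with at most
`k` leaves each. -/
theorem finite_BT {α : Type*} [Finite α] (k : ℕ) : {τ : BT α | τ.leaves.length ≤ k}.Finite := by
  induction k with
  | zero =>
    refine Set.Finite.subset Set.finite_empty fun τ hτ => ?_
    have := E3_length_pos τ
    have hτ' : τ.leaves.length ≤ 0 := hτ
    omega
  | succ k ih =>
    refine Set.Finite.subset ((Set.finite_range (fun a : α => BT.leaf a)).union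
      (Set.Finite.image2 (fun l r : BT α => BT.node l r) ih ih)) fun τ hτ => ?_
    cases τ with
    | leaf a => exact Or.inl ⟨a, rfl⟩
    | node l r =>
      have h : (l.leaves ++ r.leaves).length ≤ k + 1 := hτ
      rw [List.length_append] at h
      have h1 := E3_length_pos l
      have h2 := E3_length_pos r
      exact Or.inr ⟨l, (by show l.leaves.length ≤ k; omega), r,
        (by show r.leaves.length ≤ k; omega), rfl⟩

end Pool.Agent.Lib.H21Cube
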