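import Pool.Agent.Lib.H21Cube.E2
import Pool.Agent.Lib.H21Cube.E3

/-!
# Chunk E4 (M): shortest trees for given leaves exist
-/

namespace Pool.Agent.Lib.H21Cube

open Pool.Agent.Lib.H21Steiner

variable {α E : Type*} [MetricSpace E]

theorem leaves_pm (P : E → E) (t : PT α E) : (pm P t).leaves = t.leaves := by
  induction t with
  | leaf a => rfl
  | node q l r ihl ihr => simp only [pm, PT.leaves, ihl, ihr]

theorem InH_pm {H : Set E} {P : E → E} (hP : ∀ x, P x ∈ H) (t : PT α E) : InH H (pm P t) := by
  induction t with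
  | leaf a => exact trivial
  | node q l r ihl ihr => exact ⟨hP q, ihl, ihr⟩

theorem len_pm {y : α → E} {P : E → E} (hP : ∀ x z, dist (P x) (P z) ≤ dist x z)
    (hy : ∀ a, P (y a) = y a) (t : PT α E) (p : E) : (pm P t).len y (P p) ≤ t.len y p := by
  induction t generalizing p with
  | leaf a =>
    have h := hP p (y a)
    rw [hy a] at h
    exact h
  | node q l r ihl ihr =>
    have h := hP p q
    have h1 := ihl q
    have h2 := ihr q
    simp only [pm, PT.len]
    linarith

theorem exists_PT_of_R {y : α → E} : ∀ {τ : BT α} {p : E} {l : ℝ}, BT.R y τ p l →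
    ∃ t : PT α E, shape t = τ ∧ t.len y p ≤ l := by
  intro τ
  induction τ with
  | leaf a =>
    intro p l h
    exact ⟨PT.leaf a, rfl, h⟩
  | node σ τ ih1 ih2 =>
    intro p l h
    obtain ⟨q, l1, l2, h1, h2, h3⟩ := h
    obtain ⟨t1, e1, g1⟩ := ih1 h1
    obtain ⟨t2, e2, g2⟩ := ih2 h2
    refine ⟨PT.node q t1 t2, ?_, ?_⟩
    · simp only [shape, e1, e2]
    · simp only [PT.len]
      linarith

/-- The finitely many shapes with leaves a permutation of `L` (`finite_BT`), each with its shortest
drawing in `H` (`exists_shape_min`); take the best one. A tree anywhere is moved into `H` by `pm P`. -/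
theorem exists_opt [Finite α] {H : Set E} (hH : IsCompact H) {y : α → E} {P : E → E}
    (hP : ∀ x z, dist (P x) (P z) ≤ dist x z) (hPH : ∀ x, P x ∈ H) (hy : ∀ a, P (y a) = y a)
    {L : List α} (hL : L ≠ []) {p : E} (hp : P p = p) :
    ∃ t : PT α E, InH H t ∧ t.leaves.Perm L ∧ Opt y t p := by
  classical
  have hne : H.Nonempty := ⟨P p, hPH p⟩
  choose m hm1 hm2 hm3 using exists_shape_min (α := α) hH hne y
  have hfin : {τ : BT α | τ.leaves.Perm L}.Finite := by
    refine (finite_BT (α := α) L.length).subset ?_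
    intro τ hτ
    exact le_of_eq (List.Perm.length_eq hτ)
  have hexist : ∀ L : List α, L ≠ [] → ∃ τ : BT α, τ.leaves.Perm L := by
    intro L
    induction L with
    | nil => intro h; exact absurd rfl h
    | cons a L ih =>
      intro _
      by_cases h : L = []
      · subst h
        exact ⟨BT.leaf a, List.Perm.refl _⟩
      · obtain ⟨τ, hτ⟩ := ih h
        exact ⟨BT.node (BT.leaf a) τ, List.Perm.cons a hτ⟩
  obtain ⟨τ0, h0, hmin⟩ := Set.exists_min_image _ (fun τ => m τ p) hfin (hexist L hL)
  obtain ⟨t, ht1, ht2, ht3⟩ := hm2 τ0 p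
  have hl : t.leaves = τ0.leaves := by rw [← ht1, leaves_shape]
  refine ⟨t, ht2, ?_, ?_⟩
  · rw [hl]; exact h0
  · intro t' ht'
    have h1 : (shape (pm P t')).leaves.Perm L := by
      rw [leaves_shape, leaves_pm]
      refine ht'.trans ?_
      rw [hl]
      exact h0
    have h2 := hmin _ h1
    have h3 := hm3 _ p (pm P t') rfl (InH_pm hPH t')
    have h4 := len_pm hP hy t' p
    rw [hp] at h4
    rw [ht3]
    exact (h2.trans h3).trans h4

end Pool.Agent.Lib.H21Cube
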