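import Pool.Agent.Lib.H21Cube.Base

/-!
# Chunk I2 (M): Steiner trees and drawings under an isometry which permutes the terminals
-/

namespace Pool.Agent.Lib.H21Cube

open Pool.Agent.Lib.H21Steiner MeasureTheory

theorem isSteinerTree_image {d n : ℕ} {a : Fin n → EuclideanSpace ℝ (Fin d)}
    (σ : Equiv.Perm (Fin n)) (Φ : EuclideanSpace ℝ (Fin d) ≃ₗᵢ[ℝ] EuclideanSpace ℝ (Fin d))
    (h : ∀ i, Φ (a i) = a (σ i)) {K : Set (EuclideanSpace ℝ (Fin d))}
    (hK : IsSteinerTree (Set.range a) K) : IsSteinerTree (Set.range a) (Φ '' K) := by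
  obtain ⟨h1, h2, h3, h4⟩ := hK
  refine ⟨h1.image Φ.continuous, h2.image Φ Φ.continuous.continuousOn, ?_, ?_⟩
  · rintro _ ⟨i, rfl⟩
    refine ⟨a (σ.symm i), h3 ⟨_, rfl⟩, ?_⟩
    rw [h, Equiv.apply_symm_apply]
  · intro K' c1 c2 c3
    have e1 : μH[1] (Φ '' K) = μH[1] K :=
      Φ.isometry.hausdorffMeasure_image (Or.inl zero_le_one) K
    have e2 : μH[1] (Φ.symm '' K') = μH[1] K' :=
      Φ.symm.isometry.hausdorffMeasure_image (Or.inl zero_le_one) K'
    rw [e1, ← e2]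
    refine h4 _ (c1.image Φ.symm.continuous) (c2.image Φ.symm Φ.symm.continuous.continuousOn) ?_
    rintro _ ⟨i, rfl⟩
    refine ⟨a (σ i), c3 ⟨_, rfl⟩, ?_⟩
    rw [← h, LinearIsometryEquiv.symm_apply_apply]

theorem isDrawing_image {d n : ℕ} {a : Fin n → EuclideanSpace ℝ (Fin d)}
    (σ : Equiv.Perm (Fin n)) (Φ : EuclideanSpace ℝ (Fin d) ≃ₗᵢ[ℝ] EuclideanSpace ℝ (Fin d))
    (h : ∀ i, Φ (a i) = a (σ i)) {G : SimpleGraph (Vert n)} {K : Set (EuclideanSpace ℝ (Fin d))}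
    (hK : IsDrawing a G K) : IsDrawing a (G.map (vperm σ).toEmbedding) (Φ '' K) := by
  obtain ⟨x, hx, hxa, hc, rfl⟩ := hK
  have hseg : ∀ p q : EuclideanSpace ℝ (Fin d), Φ '' segment ℝ p q = segment ℝ (Φ p) (Φ q) := by
    intro p q
    exact image_segment ℝ Φ.toLinearEquiv.toLinearMap.toAffineMap p q
  have hsymm : ∀ i, (vperm σ).symm (Sum.inl i) = Sum.inl (σ.symm i) := fun i => rfl
  refine ⟨fun v => Φ (x ((vperm σ).symm v)), ?_, ?_, ?_, ?_⟩
  · intro u v huv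
    exact (vperm σ).symm.injective (hx (Φ.injective huv))
  · intro i
    change Φ (x ((vperm σ).symm (Sum.inl i))) = a i
    rw [hsymm, hxa, h, Equiv.apply_symm_apply]
  · intro u v z w huv hzw hne y hy hy'
    rw [SimpleGraph.map_adj] at huv hzw
    obtain ⟨u', v', hu'v', rfl, rfl⟩ := huv
    obtain ⟨z', w', hz'w', rfl, rfl⟩ := hzw
    simp only [Equiv.coe_toEmbedding, Equiv.symm_apply_apply] at hy hy' hne ⊢
    rw [← hseg] at hy hy'
    obtain ⟨y1, hy1, rfl⟩ := hy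
    obtain ⟨y2, hy2, hy12⟩ := hy'
    obtain rfl : y2 = y1 := Φ.injective hy12
    have hne' : s(u', v') ≠ s(z', w') := by
      intro he
      apply hne
      have := congrArg (Sym2.map (vperm σ)) he
      simpa using this
    obtain ⟨c, c1, c2, c3⟩ := hc u' v' z' w' hu'v' hz'w' hne' y2 hy1 hy2
    refine ⟨vperm σ c, ?_, ?_, ?_⟩
    · have : vperm σ c ∈ Sym2.map (vperm σ) s(u', v') := Sym2.mem_map.2 ⟨c, c1, rfl⟩
      simpa using this
    · have : vperm σ c ∈ Sym2.map (vperm σ) s(z', w') := Sym2.mem_map.2 ⟨c, c2, rfl⟩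
      simpa using this
    · rw [Equiv.symm_apply_apply, c3]
  · simp only [Set.image_iUnion, hseg]
    ext y
    simp only [Set.mem_iUnion, exists_prop, SimpleGraph.map_adj]
    constructor
    · rintro ⟨u, v, huv, hy⟩
      refine ⟨vperm σ u, vperm σ v, ⟨u, v, huv, rfl, rfl⟩, ?_⟩
      rw [Equiv.symm_apply_apply, Equiv.symm_apply_apply]
      exact hy
    · rintro ⟨u, v, ⟨u', v', huv, rfl, rfl⟩, hy⟩
      refine ⟨u', v', huv, ?_⟩
      simpa only [Equiv.coe_toEmbedding, Equiv.symm_apply_apply] using hy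

end Pool.Agent.Lib.H21Cube
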