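import Pool.Agent.Lib.H21Cube.Base

/-!
# Chunk M1 (M): the points
-/

namespace Pool.Agent.Lib.H21Cube

/-- the points -/
private def m1_pt (d k n : ℕ) (i : Fin n) : EuclideanSpace ℝ (Fin d) :=
  WithLp.toLp 2 (fun c : Fin d => if i.val < k then (if c.val = i.val then (1 : ℝ) else 0) else
    (if c.val < k then 0 else if (i.val - k).testBit (c.val - k) then 1 else 0))

private lemma m1_pt_apply (d k n : ℕ) (i : Fin n) (c : Fin d) :
    m1_pt d k n i c = if i.val < k then (if c.val = i.val then (1 : ℝ) else 0) else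
    (if c.val < k then 0 else if (i.val - k).testBit (c.val - k) then 1 else 0) := rfl

private lemma m1_inj {d k n : ℕ} (hk : k ≤ d) (h2 : n ≤ k + 2 ^ (d - k)) :
    Function.Injective (m1_pt d k n) := by
  intro i j hij
  have h : ∀ c : Fin d, m1_pt d k n i c = m1_pt d k n j c := fun c => by rw [hij]
  simp only [m1_pt_apply] at h
  by_cases hi : i.val < k
  · have hc := h ⟨i.val, by omega⟩
    by_cases hj : j.val < k
    · simp only [hi, hj, if_true] at hc
      by_contra hne
      rw [if_neg (fun h' => hne (Fin.ext h'))] at hc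
      exact one_ne_zero hc
    · simp only [hi, hj, if_true, if_false] at hc
      exact absurd hc one_ne_zero
  · by_cases hj : j.val < k
    · have hc := h ⟨j.val, by omega⟩
      simp only [hi, hj, if_true, if_false] at hc
      exact absurd hc.symm one_ne_zero
    · have key : i.val - k = j.val - k := by
        apply Nat.eq_of_testBit_eq
        intro b
        by_cases hb : b < d - k
        · have hc := h ⟨k + b, by omega⟩
          simp only [hi, hj, if_false, Nat.add_sub_cancel_left, show ¬ k + b < k by omega] at hc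
          by_cases h1 : (i.val - k).testBit b = true <;>
            by_cases h2 : (j.val - k).testBit b = true
          · rw [h1, h2]
          · rw [if_pos h1, if_neg h2] at hc
            exact absurd hc one_ne_zero
          · rw [if_neg h1, if_pos h2] at hc
            exact absurd hc.symm one_ne_zero
          · rw [Bool.not_eq_true] at h1 h2
            rw [h1, h2]
        · have hle : 2 ^ (d - k) ≤ 2 ^ b := Nat.pow_le_pow_right (by norm_num) (by omega)
          rw [Nat.testBit_lt_two_pow (by omega), Nat.testBit_lt_two_pow (by omega)]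
      exact Fin.ext (by omega)

private lemma m1_via_apply {k m : ℕ} (hk : k ≤ m) (g : Equiv.Perm (Fin k)) (c : Fin m)
    (hc : c.val < k) :
    g.viaEmbedding (Fin.castLEEmb hk) c = Fin.castLE hk (g ⟨c.val, hc⟩) := by
  have h := Equiv.Perm.viaEmbedding_apply g (Fin.castLEEmb hk) ⟨c.val, hc⟩
  exact h

private lemma m1_via_apply' {k m : ℕ} (hk : k ≤ m) (g : Equiv.Perm (Fin k)) (c : Fin m)
    (hc : ¬ c.val < k) : g.viaEmbedding (Fin.castLEEmb hk) c = c := by
  apply Equiv.Perm.viaEmbedding_apply_of_notMem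
  rintro ⟨x, rfl⟩
  exact hc x.2

private lemma m1_symm {k m : ℕ} (hk : k ≤ m) (g : Equiv.Perm (Fin k)) (c : Fin m)
    (i : Fin k) : ((g.viaEmbedding (Fin.castLEEmb hk)).symm c).val = i.val ↔ c.val = (g i).val := by
  have h : (g.viaEmbedding (Fin.castLEEmb hk)) (Fin.castLE hk i) = Fin.castLE hk (g i) :=
    Equiv.Perm.viaEmbedding_apply g (Fin.castLEEmb hk) i
  constructor
  · intro h'
    have h1 : (g.viaEmbedding (Fin.castLEEmb hk)).symm c = Fin.castLE hk i := Fin.ext h'
    rw [Equiv.symm_apply_eq, h] at h1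
    rw [h1]; rfl
  · intro h'
    have h1 : c = Fin.castLE hk (g i) := Fin.ext h'
    rw [← h] at h1
    rw [h1, Equiv.symm_apply_apply]
    rfl

private lemma m1_symm_lt {k m : ℕ} (hk : k ≤ m) (g : Equiv.Perm (Fin k)) (c : Fin m) (hc : c.val < k) :
    ((g.viaEmbedding (Fin.castLEEmb hk)).symm c).val < k := by
  have h := (m1_symm hk g c (g.symm ⟨c.val, hc⟩)).2 (by rw [Equiv.apply_symm_apply])
  rw [h]
  exact (g.symm ⟨c.val, hc⟩).2

private lemma m1_symm_ge {k m : ℕ} (hk : k ≤ m) (g : Equiv.Perm (Fin k)) (c : Fin m)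
    (hc : ¬ c.val < k) : (g.viaEmbedding (Fin.castLEEmb hk)).symm c = c := by
  rw [Equiv.symm_apply_eq, m1_via_apply' hk g c hc]

/-- `a i` for `i < k` is the `i`-th unit vector; for `i ≥ k` the first `k` coordinates of `a i` are `0` and
the coordinate `k + j` is the `j`-th binary digit of `i - k < 2 ^ (d - k)` (`Nat.testBit`). `ι g` is `g` on
the `i < k` and the identity on the others (`Equiv.Perm.viaFintypeEmbedding` or `Equiv.Perm.extendDomain`),
`Φ g` is the same permutation of the coordinates (`LinearIsometryEquiv.piLpCongrLeft`), `r = k`. -/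
theorem exists_points {d k n : ℕ} (hk : k ≤ d) (h1 : k + 1 ≤ n) (h2 : n ≤ k + 2 ^ (d - k)) :
    ∃ (a : Fin n → EuclideanSpace ℝ (Fin d)) (ι : Equiv.Perm (Fin k) →* Equiv.Perm (Fin n))
      (Φ : Equiv.Perm (Fin k) → (EuclideanSpace ℝ (Fin d) ≃ₗᵢ[ℝ] EuclideanSpace ℝ (Fin d)))
      (r : Fin n), Function.Injective a ∧ (∀ i, IsVert (a i)) ∧ Function.Injective ι ∧
        (∀ g, ι g r = r) ∧ ∀ g i, Φ g (a i) = a (ι g i) := by
  have hkn : k ≤ n := by omega
  refine ⟨m1_pt d k n, Equiv.Perm.viaEmbeddingHom (Fin.castLEEmb hkn),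
    fun g => LinearIsometryEquiv.piLpCongrLeft 2 ℝ ℝ (g.viaEmbedding (Fin.castLEEmb hk)),
    ⟨k, by omega⟩, m1_inj hk h2, ?_, Equiv.Perm.viaEmbeddingHom_injective _, ?_, ?_⟩
  · intro i c
    rw [m1_pt_apply]
    split_ifs <;> simp
  · intro g
    rw [Equiv.Perm.viaEmbeddingHom_apply]
    exact m1_via_apply' hkn g _ (by simp)
  · intro g i
    rw [Equiv.Perm.viaEmbeddingHom_apply]
    ext c
    have hL : (LinearIsometryEquiv.piLpCongrLeft 2 ℝ ℝ (g.viaEmbedding (Fin.castLEEmb hk))
        (m1_pt d k n i)) c = m1_pt d k n i ((g.viaEmbedding (Fin.castLEEmb hk)).symm c) := rfl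
    rw [hL]
    by_cases hi : i.val < k
    · rw [m1_via_apply hkn g i hi, m1_pt_apply, m1_pt_apply, if_pos hi,
        if_pos (show (Fin.castLE hkn (g ⟨i.val, hi⟩)).val < k from (g ⟨i.val, hi⟩).2)]
      have h := m1_symm hk g c ⟨i.val, hi⟩
      by_cases h' : c.val = (g ⟨i.val, hi⟩).val
      · rw [if_pos (h.2 h'), if_pos (show c.val = (Fin.castLE hkn (g ⟨i.val, hi⟩)).val from h')]
      · rw [if_neg (fun h'' => h' (h.1 h'')),
          if_neg (show ¬ c.val = (Fin.castLE hkn (g ⟨i.val, hi⟩)).val from h')]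
    · rw [m1_via_apply' hkn g i hi, m1_pt_apply, m1_pt_apply, if_neg hi, if_neg hi]
      by_cases hc : c.val < k
      · rw [if_pos (m1_symm_lt hk g c hc), if_pos hc]
      · rw [m1_symm_ge hk g c hc]

end Pool.Agent.Lib.H21Cube
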