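import Pool.Agent.Lib.H21Cube.Base

/-!
# Chunk M2 (S): the odd part of a factorial
-/

namespace Pool.Agent.Lib.H21Cube

/-- `k! = m * 2 ^ s` with `m` odd and `s ≤ k - 1` (the exponent of `2` in `k!` is `k` minus the sum of the
binary digits of `k`). -/
theorem factorial_odd {k : ℕ} (hk : 1 ≤ k) : ∃ m s : ℕ, Odd m ∧ s ≤ k - 1 ∧ k.factorial = m * 2 ^ s := by
  obtain ⟨s, m, hm, h⟩ := Nat.exists_eq_two_pow_mul_odd (Nat.factorial_ne_zero k)
  refine ⟨m, s, hm, ?_, by rw [h, mul_comm]⟩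
  have h1 : emultiplicity 2 k.factorial < k := Nat.emultiplicity_two_factorial_lt (by omega)
  have h2 : (s : ℕ∞) ≤ emultiplicity 2 k.factorial := le_emultiplicity_of_pow_dvd ⟨m, h⟩
  have h3 : (s : ℕ∞) < (k : ℕ∞) := lt_of_le_of_lt h2 h1
  have h4 : s < k := by exact_mod_cast h3
  omega

end Pool.Agent.Lib.H21Cube
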