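import Pool.Agent.Lib.H21Cube.E5
import Pool.Agent.Lib.H21Cube.I2
import Pool.Agent.Lib.H21Cube.C2
import Pool.Agent.Lib.H21Cube.M1

/-!
# The number of simultaneously optimal full topologies in high dimension
-/

namespace Pool.Agent.Lib.H21Cube

open Pool.Agent.Lib.H21Steiner

theorem odd_le_maxOptimal {d k n m : ℕ} (hn : 3 ≤ n) (hk : k ≤ d) (h1 : k + 1 ≤ n)
    (h2 : n ≤ k + 2 ^ (d - k)) (hodd : Odd m) (hm : m ∣ k.factorial) :
    (m : ℕ∞) ≤ maxOptimal d n := by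
  obtain ⟨a, ι, Φ, r, hinj, hv, hι, hr, hΦ⟩ := exists_points hk h1 h2
  obtain ⟨G, hG⟩ := exists_full hn a hv hinj
  have hS : ∀ g, G.map (vperm (ι g)).toEmbedding ∈ optimalGraphs a := by
    intro g
    obtain ⟨h3, K, h4, h5⟩ := hG
    exact ⟨isFullTopology_map _ h3, Φ g '' K, isSteinerTree_image (ι g) (Φ g) (hΦ g) h4,
      isDrawing_image (ι g) (Φ g) (hΦ g) h5⟩
  have h3 : (m : ℕ∞) ≤ numOptimal a := by
    refine count hG.1 ι hι r hr (optimalGraphs a) hS hodd ?_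
    rw [Nat.card_perm, Nat.card_fin]
    exact hm
  exact h3.trans (le_iSup (fun a : {a : Fin n → EuclideanSpace ℝ (Fin d) // Function.Injective a} =>
    numOptimal a.1) ⟨a, hinj⟩)

private theorem factorial_eq (k : ℕ) :
    ∃ m : ℕ, Odd m ∧ k.factorial = 2 ^ (k - (Nat.digits 2 k).sum) * m := by
  obtain ⟨s, m, hm, h⟩ := Nat.exists_eq_two_pow_mul_odd (Nat.factorial_ne_zero k)
  have h1 : padicValNat 2 k.factorial = s := by
    rw [h]
    have : Fact (Nat.Prime 2) := ⟨Nat.prime_two⟩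
    rw [padicValNat.mul (by positivity) (by rintro rfl; simp at hm), padicValNat.prime_pow,
      padicValNat.eq_zero_of_not_dvd (fun h2 => by
        rw [← even_iff_two_dvd] at h2
        exact (Nat.not_even_iff_odd.2 hm) h2), add_zero]
  have h2 := sub_one_mul_padicValNat_factorial (p := 2) k
  refine ⟨m, hm, ?_⟩
  rw [← h2, h1]
  simpa using h

/-- The exponent `k - (Nat.digits 2 k).sum` is the exponent of `2` in `k!`. -/
theorem factorial_le_maxOptimal {d k n : ℕ} (hn : 3 ≤ n) (hk : k ≤ d)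
    (h1 : k + 1 ≤ n) (h2 : n ≤ k + 2 ^ (d - k)) :
    ((k.factorial : ℕ) : ℕ∞) ≤ 2 ^ (k - (Nat.digits 2 k).sum) * maxOptimal d n := by
  obtain ⟨m, hodd, hks⟩ := factorial_eq k
  have h3 := odd_le_maxOptimal hn hk h1 h2 hodd (m := m)
    ⟨2 ^ (k - (Nat.digits 2 k).sum), by rw [hks, mul_comm]⟩
  calc ((k.factorial : ℕ) : ℕ∞) = 2 ^ (k - (Nat.digits 2 k).sum) * (m : ℕ∞) := by
        rw [hks]
        push_cast
        rfl
    _ ≤ _ := mul_le_mul' le_rfl h3

end Pool.Agent.Lib.H21Cube
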