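import Pool.Agent.Lib.H21Cube.Base

/-!
# Chunk T1 (S/M): a point at which two edges make an angle less than 120 degrees is not optimal
-/

namespace Pool.Agent.Lib.H21Cube

/-- If the angle at `v` of the directions to `s` and `t` is less than 120 degrees then the two
edges `v s`, `v t` can be replaced by a shorter tripod.
Proof: `u = (s - v)/|s - v|`, `u' = (t - v)/|t - v|`, `c = ⟪u, u'⟫ > -1/2`, `w = v + δ (u + u')` with a
small `δ > 0`. `|w - v| = δ √(2 + 2c)`; with `A = |s - v| - δ (1 + c) > 0` one has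
`|w - s|² = A² + δ² (1 - c²) ≤ (A + δ²/(2 A))²` (as `|c| ≤ 1`), the same for `t`; the sum is at most
`|s - v| + |t - v| - δ (2 (1 + c) - √(2 + 2c)) + C δ²`, and `2 (1 + c) > √(2 + 2c)` since `2 + 2c > 1`. -/
theorem tripod {E : Type*} [NormedAddCommGroup E] [InnerProductSpace ℝ E] {v s t : E}
    (hs : s ≠ v) (ht : t ≠ v)
    (h : -(1 / 2) * (‖s - v‖ * ‖t - v‖) < inner ℝ (s - v) (t - v)) :
    ∃ w, dist v w + dist w s + dist w t < dist v s + dist v t := by
  have ha : 0 < ‖s - v‖ := norm_pos_iff.mpr (sub_ne_zero.mpr hs)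
  have hb : 0 < ‖t - v‖ := norm_pos_iff.mpr (sub_ne_zero.mpr ht)
  obtain ⟨p, hp⟩ : ∃ p, p = s - v := ⟨_, rfl⟩
  obtain ⟨q, hq⟩ : ∃ q, q = t - v := ⟨_, rfl⟩
  rw [← hp, ← hq] at h
  rw [← hp] at ha
  rw [← hq] at hb
  obtain ⟨a, haa⟩ : ∃ a, a = ‖p‖ := ⟨_, rfl⟩
  obtain ⟨b, hbb⟩ : ∃ b, b = ‖q‖ := ⟨_, rfl⟩
  obtain ⟨I, hI⟩ : ∃ I : ℝ, I = inner ℝ p q := ⟨_, rfl⟩
  rw [← haa, ← hbb, ← hI] at h
  rw [← haa] at ha
  rw [← hbb] at hb
  have hab : 0 < a * b := mul_pos ha hb
  obtain ⟨m, hm⟩ : ∃ m, m = 2 + 2 * (I / (a * b)) := ⟨_, rfl⟩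
  have hm1 : 1 < m := by
    have : -(1 / 2) < I / (a * b) := by
      rw [lt_div_iff₀ hab]; exact h
    rw [hm]; linarith
  have hIm : I = (m / 2 - 1) * (a * b) := by
    rw [hm]; field_simp; ring
  obtain ⟨r, hr⟩ : ∃ r, r = Real.sqrt m := ⟨_, rfl⟩
  have hr0 : 0 ≤ r := by rw [hr]; exact Real.sqrt_nonneg m
  have hrr : r * r = m := by rw [hr]; exact Real.mul_self_sqrt (by linarith)
  have hr1 : 1 < r := by nlinarith
  have hD : 0 < m - r := by nlinarith
  obtain ⟨K, hK⟩ : ∃ K, K = m / 2 * (1 / a + 1 / b) := ⟨_, rfl⟩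
  have hK0 : 0 < K := by rw [hK]; positivity
  obtain ⟨d, hd⟩ : ∃ d, d = (m - r) / (2 * K) := ⟨_, rfl⟩
  have hd0 : 0 < d := by rw [hd]; positivity
  have hdK : d * K = (m - r) / 2 := by rw [hd]; field_simp
  obtain ⟨z, hz⟩ : ∃ z : E, z = (1 / a) • p + (1 / b) • q := ⟨_, rfl⟩
  have hpp : inner ℝ p p = a * a := by rw [real_inner_self_eq_norm_mul_norm, ← haa]
  have hqq : inner ℝ q q = b * b := by rw [real_inner_self_eq_norm_mul_norm, ← hbb]
  have hqp : inner ℝ q p = I := by rw [real_inner_comm, ← hI]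
  have hpz : inner ℝ p z = a * (m / 2) := by
    rw [hz, inner_add_right, inner_smul_right, inner_smul_right, hpp, ← hI, hIm]
    field_simp; ring
  have hqz : inner ℝ q z = b * (m / 2) := by
    rw [hz, inner_add_right, inner_smul_right, inner_smul_right, hqq, hqp, hIm]
    field_simp; ring
  have hzz : inner ℝ z z = m := by
    have h1 : ∀ y : E, inner ℝ z y = (1 / a) * inner ℝ p y + (1 / b) * inner ℝ q y := by
      intro y
      rw [hz, inner_add_left, real_inner_smul_left, real_inner_smul_left]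
    rw [h1, hpz, hqz]; field_simp; ring
  have hzn : ‖z‖ = r := by
    rw [norm_eq_sqrt_real_inner, hzz, hr]
  have key : ∀ (x : E) (c : ℝ), 0 < c → inner ℝ x x = c * c → inner ℝ x z = c * (m / 2) →
      ‖d • z - x‖ ≤ c - d * (m / 2) + d * d * (m / 2) * (1 / c) := by
    intro x c hc hxx hxz
    have h1 : ‖d • z - x‖ * ‖d • z - x‖ = d * d * m - 2 * (d * (c * (m / 2))) + c * c := by
      rw [← real_inner_self_eq_norm_mul_norm, inner_sub_left, inner_sub_right, inner_sub_right,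
        real_inner_smul_left, real_inner_smul_left, inner_smul_right, inner_smul_right, hzz, hxx,
        real_inner_comm x z, hxz]
      ring
    have h2 : 0 ≤ (‖d • z - x‖ - c) * (‖d • z - x‖ - c) := mul_self_nonneg _
    have h3 : 2 * c * ‖d • z - x‖ ≤ d * d * m - 2 * (d * (c * (m / 2))) + c * c + c * c := by
      nlinarith
    have h4 : ‖d • z - x‖ ≤ (d * d * m - 2 * (d * (c * (m / 2))) + c * c + c * c) / (2 * c) := by
      rw [le_div_iff₀ (by positivity)]; linarith
    have h5 : (d * d * m - 2 * (d * (c * (m / 2))) + c * c + c * c) / (2 * c)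
        = c - d * (m / 2) + d * d * (m / 2) * (1 / c) := by
      field_simp; ring
    rw [h5] at h4; exact h4
  refine ⟨v + d • z, ?_⟩
  have e1 : dist v (v + d • z) = d * r := by
    rw [dist_eq_norm]
    have : v - (v + d • z) = -(d • z) := by abel
    rw [this, norm_neg, norm_smul, Real.norm_eq_abs, abs_of_pos hd0, hzn]
  have e2 : dist (v + d • z) s = ‖d • z - p‖ := by
    rw [dist_eq_norm, hp]; congr 1; abel
  have e3 : dist (v + d • z) t = ‖d • z - q‖ := by
    rw [dist_eq_norm, hq]; congr 1; abel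
  have e4 : dist v s = a := by rw [dist_comm, dist_eq_norm, haa, hp]
  have e5 : dist v t = b := by rw [dist_comm, dist_eq_norm, hbb, hq]
  rw [e1, e2, e3, e4, e5]
  have k1 := key p a ha hpp hpz
  have k2 := key q b hb hqq hqz
  have k3 : d * d * (m / 2) * (1 / a) + d * d * (m / 2) * (1 / b) = d * (d * K) := by
    rw [hK]; ring
  rw [hdK] at k3
  have k4 : 0 < d * (m - r) := mul_pos hd0 hD
  nlinarith

end Pool.Agent.Lib.H21Cube
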