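import Pool.Agent.Lib.H21Cube.Base

/-!
# Chunk T2 (S): among four nonzero vectors two have an angle less than 120 degrees
-/

namespace Pool.Agent.Lib.H21Cube

/-- Normalise; `0 ≤ ‖∑ u i / ‖u i‖‖² = 4 + 2 ∑ (six pairs)`, so the inner product of one of the six pairs of
unit vectors is at least `-1/3 > -1/2`. -/
theorem four {E : Type*} [NormedAddCommGroup E] [InnerProductSpace ℝ E] (u : Fin 4 → E)
    (h : ∀ i, u i ≠ 0) :
    ∃ i j, i ≠ j ∧ -(1 / 2) * (‖u i‖ * ‖u j‖) < inner ℝ (u i) (u j) := by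
  by_contra hcon
  push Not at hcon
  have hpos : ∀ i, 0 < ‖u i‖ := fun i => norm_pos_iff.2 (h i)
  let v : Fin 4 → E := fun i => (‖u i‖)⁻¹ • u i
  have hself : ∀ i, inner ℝ (v i) (v i) = (1 : ℝ) := by
    intro i
    have h1 : ‖v i‖ = 1 := by
      simp only [v, norm_smul, norm_inv, norm_norm]
      exact inv_mul_cancel₀ (hpos i).ne'
    rw [real_inner_self_eq_norm_sq, h1, one_pow]
  have hne : ∀ i j, i ≠ j → inner ℝ (v i) (v j) ≤ (-(1 / 2) : ℝ) := by
    intro i j hij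
    have h1 := hcon i j hij
    have hi := hpos i
    have hj := hpos j
    simp only [v, real_inner_smul_left, real_inner_smul_right]
    have h2 : (‖u i‖)⁻¹ * ((‖u j‖)⁻¹ * inner ℝ (u i) (u j)) ≤
        (‖u i‖)⁻¹ * ((‖u j‖)⁻¹ * (-(1 / 2) * (‖u i‖ * ‖u j‖))) := by
      apply mul_le_mul_of_nonneg_left _ (inv_nonneg.2 hi.le)
      exact mul_le_mul_of_nonneg_left h1 (inv_nonneg.2 hj.le)
    have h3 : (‖u i‖)⁻¹ * ((‖u j‖)⁻¹ * (-(1 / 2) * (‖u i‖ * ‖u j‖))) = -(1 / 2) := by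
      field_simp
    rw [h3] at h2
    calc _ = (‖u i‖)⁻¹ * ((‖u j‖)⁻¹ * inner ℝ (u i) (u j)) := by ring
      _ ≤ _ := h2
  have hsum : (0 : ℝ) ≤ inner ℝ (∑ i, v i) (∑ i, v i) := real_inner_self_nonneg
  rw [Fin.sum_univ_four] at hsum
  simp only [inner_add_left, inner_add_right, hself] at hsum
  have h01 := hne 0 1 (by decide)
  have h02 := hne 0 2 (by decide)
  have h03 := hne 0 3 (by decide)
  have h10 := hne 1 0 (by decide)
  have h12 := hne 1 2 (by decide)
  have h13 := hne 1 3 (by decide)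
  have h20 := hne 2 0 (by decide)
  have h21 := hne 2 1 (by decide)
  have h23 := hne 2 3 (by decide)
  have h30 := hne 3 0 (by decide)
  have h31 := hne 3 1 (by decide)
  have h32 := hne 3 2 (by decide)
  linarith

end Pool.Agent.Lib.H21Cube
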